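import Pool.Agent.PLX.StmtsA

/-!
# Squad PLX, row WRD (helper86): words
-/

set_option autoImplicit false

namespace Pool.Agent.PLX.H86

open Pool.Agent.PLX

/-- **Row WRD.** -/
theorem wrd : WrdStmt := by
  intro B _ _ E _ _ f V Q K hK hQ l
  induction l with
  | nil =>
    intro _ x hx _
    refine ⟨1, le_refl _, ?_, ?_, ?_⟩
    · simp
    · simpa using hx
    · simp
  | cons q l ih =>
    intro hl x hx hb
    have hK0 : 0 ≤ K := zero_le_one.trans hK
    have hlen : (q :: l).length = l.length + 1 := rfl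
    rw [hlen] at hb ⊢
    have hn := norm_nonneg (f x)
    have h1 : K ^ (l.length + 1) * ‖f x‖ ≤ 1 := by
      refine le_trans ?_ hb
      exact mul_le_mul_of_nonneg_right (pow_le_pow_right₀ hK (by omega)) hn
    obtain ⟨c', hc1, hc2, hy, hfy⟩ := ih (fun p hp => hl p (List.mem_cons_of_mem _ hp)) x hx h1
    set y : B := c' • l.prod.1 x with hyd
    have h2 : K * ‖f y‖ ≤ 1 := by
      calc K * ‖f y‖ ≤ K * (K ^ l.length * ‖f x‖) := mul_le_mul_of_nonneg_left hfy hK0
        _ = K ^ (l.length + 1) * ‖f x‖ := by ring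
        _ ≤ 1 := h1
    obtain ⟨c, hc3, hc4, hz, hfz⟩ := hQ q (hl q List.mem_cons_self) y hy h2
    have he : (c * c') • (q :: l).prod.1 x = c • q.1 y := by
      rw [hyd, List.prod_cons, Prod.fst_mul, Module.End.mul_apply, map_nsmul, mul_smul]
    refine ⟨c * c', Nat.one_le_iff_ne_zero.2 (Nat.mul_ne_zero (by omega) (by omega)), ?_, ?_, ?_⟩
    · push_cast
      calc (c : ℝ) * (c' : ℝ) ≤ K * K ^ l.length :=
            mul_le_mul hc4 hc2 (Nat.cast_nonneg _) hK0
        _ = K ^ (l.length + 1) := by ring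
    · rw [he]
      exact hz
    · rw [he]
      calc ‖f (c • q.1 y)‖ ≤ K * ‖f y‖ := hfz
        _ ≤ K * (K ^ l.length * ‖f x‖) := mul_le_mul_of_nonneg_left hfy hK0
        _ = K ^ (l.length + 1) * ‖f x‖ := by ring

end Pool.Agent.PLX.H86
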